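import Pool.Agent.L0h16.LL.Stm

/-!
LL-GRAM: finitely many classes of bases of sublattices with bounded Gram matrices.
-/

set_option autoImplicit false

namespace Pool.Agent.L0h84.LL

open Matrix
open Pool.Agent.L0h16.LL (bil S_GRAM)
open Pool.Agent.N165.KM (IntL)

variable {ρ : ℕ}

/-- the real matrix -/
noncomputable def re (G : Matrix (Fin ρ) (Fin ρ) ℤ) : Matrix (Fin ρ) (Fin ρ) ℝ :=
  G.map (Int.cast : ℤ → ℝ)

theorem re_mul (A B : Matrix (Fin ρ) (Fin ρ) ℤ) : re (A * B) = re A * re B := by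
  ext i j
  simp only [re, Matrix.map_apply, Matrix.mul_apply]
  push_cast
  rfl

theorem re_tr (A : Matrix (Fin ρ) (Fin ρ) ℤ) : re Aᵀ = (re A)ᵀ := rfl

theorem re_det (G : Matrix (Fin ρ) (Fin ρ) ℤ) : (re G).det = (G.det : ℝ) := by
  have := (Int.castRingHom ℝ).map_det G
  exact this.symm

theorem re_unit {G : Matrix (Fin ρ) (Fin ρ) ℤ} (h : G.det ≠ 0) : IsUnit (re G).det := by
  rw [re_det, isUnit_iff_ne_zero]
  exact_mod_cast h

theorem bil_eq (Q : Matrix (Fin ρ) (Fin ρ) ℤ) (x z : Fin ρ → ℝ) :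
    bil Q x z = x ⬝ᵥ (re Q *ᵥ z) := by
  simp only [bil, dotProduct, mulVec, re, Matrix.map_apply, Finset.mul_sum]
  refine Finset.sum_congr rfl fun i _ => Finset.sum_congr rfl fun j _ => ?_
  ring

theorem bil_vecMul (Q : Matrix (Fin ρ) (Fin ρ) ℤ) (A : Matrix (Fin ρ) (Fin ρ) ℝ)
    (x z : Fin ρ → ℝ) : bil Q (x ᵥ* A) (z ᵥ* A) = x ⬝ᵥ ((A * re Q * Aᵀ) *ᵥ z) := by
  rw [bil_eq, ← Matrix.dotProduct_mulVec, ← Matrix.mulVec_transpose A z, Matrix.mulVec_mulVec,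
    Matrix.mulVec_mulVec, Matrix.mul_assoc]

theorem gram_eq (Q G : Matrix (Fin ρ) (Fin ρ) ℤ) (i j : Fin ρ) :
    bil Q (fun k => (G i k : ℝ)) (fun k => (G j k : ℝ)) = (((G * Q * Gᵀ) i j : ℤ) : ℝ) := by
  simp only [bil, Matrix.mul_apply, transpose_apply, Finset.sum_mul]
  push_cast
  rw [Finset.sum_comm]
  refine Finset.sum_congr rfl fun k _ => Finset.sum_congr rfl fun l _ => ?_
  ring

/-- the isometry -/
noncomputable def iso {G G' : Matrix (Fin ρ) (Fin ρ) ℤ} (h : G.det ≠ 0) (h' : G'.det ≠ 0) :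
    (Fin ρ → ℝ) ≃ₗ[ℝ] (Fin ρ → ℝ) :=
  LinearEquiv.ofLinearMap (Matrix.vecMulLinear ((re G)⁻¹ * re G'))
    (Matrix.vecMulLinear ((re G')⁻¹ * re G))
    (by
      ext1 x
      ext1
      simp only [LinearMap.comp_apply, Matrix.vecMulLinear_apply, LinearMap.id_apply]
      rw [Matrix.vecMul_vecMul, Matrix.mul_assoc, ← Matrix.mul_assoc (re G),
        Matrix.mul_nonsing_inv _ (re_unit h), Matrix.one_mul,
        Matrix.nonsing_inv_mul _ (re_unit h'), Matrix.vecMul_one])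
    (by
      ext1 x
      ext1
      simp only [LinearMap.comp_apply, Matrix.vecMulLinear_apply, LinearMap.id_apply]
      rw [Matrix.vecMul_vecMul, Matrix.mul_assoc, ← Matrix.mul_assoc (re G'),
        Matrix.mul_nonsing_inv _ (re_unit h'), Matrix.one_mul,
        Matrix.nonsing_inv_mul _ (re_unit h), Matrix.vecMul_one])

theorem iso_apply {G G' : Matrix (Fin ρ) (Fin ρ) ℤ} (h : G.det ≠ 0) (h' : G'.det ≠ 0)
    (x : Fin ρ → ℝ) : iso h h' x = x ᵥ* ((re G)⁻¹ * re G') := rfl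

theorem iso_symm_apply {G G' : Matrix (Fin ρ) (Fin ρ) ℤ} (h : G.det ≠ 0) (h' : G'.det ≠ 0)
    (x : Fin ρ → ℝ) : (iso h h').symm x = x ᵥ* ((re G')⁻¹ * re G) := rfl

theorem iso_row {G G' : Matrix (Fin ρ) (Fin ρ) ℤ} (h : G.det ≠ 0) (h' : G'.det ≠ 0) (i : Fin ρ) :
    iso h h' (fun k => (G i k : ℝ)) = fun k => (G' i k : ℝ) := by
  rw [iso_apply]
  have h1 : (re G * ((re G)⁻¹ * re G')) i = (re G i) ᵥ* ((re G)⁻¹ * re G') :=
    Matrix.mul_apply_eq_vecMul _ _ _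
  have h2 : re G * ((re G)⁻¹ * re G') = re G' := by
    rw [← Matrix.mul_assoc, Matrix.mul_nonsing_inv _ (re_unit h), Matrix.one_mul]
  rw [h2] at h1
  exact h1.symm

theorem iso_form {Q G G' : Matrix (Fin ρ) (Fin ρ) ℤ} (h : G.det ≠ 0) (h' : G'.det ≠ 0)
    (hg : G * Q * Gᵀ = G' * Q * G'ᵀ) (x z : Fin ρ → ℝ) :
    bil Q (iso h h' x) (iso h h' z) = bil Q x z := by
  rw [iso_apply, iso_apply, bil_vecMul, bil_eq]
  have h1 : re G * re Q * (re G)ᵀ = re G' * re Q * (re G')ᵀ := by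
    rw [← re_tr, ← re_tr, ← re_mul, ← re_mul, ← re_mul, ← re_mul, hg]
  have h2 : (re G)⁻¹ * re G' * re Q * ((re G)⁻¹ * re G')ᵀ =
      (re G)⁻¹ * (re G' * re Q * (re G')ᵀ) * ((re G)⁻¹)ᵀ := by
    rw [Matrix.transpose_mul]
    simp only [Matrix.mul_assoc]
  have h3 : (re G)ᵀ * ((re G)⁻¹)ᵀ = 1 := by
    rw [← Matrix.transpose_mul, Matrix.nonsing_inv_mul _ (re_unit h), Matrix.transpose_one]
  rw [h2, ← h1]
  have h4 : (re G)⁻¹ * (re G * re Q * (re G)ᵀ) * ((re G)⁻¹)ᵀ = re Q := by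
    rw [Matrix.mul_assoc (re G), ← Matrix.mul_assoc ((re G)⁻¹), Matrix.nonsing_inv_mul _ (re_unit h),
      Matrix.one_mul, Matrix.mul_assoc, h3, Matrix.mul_one]
  rw [h4]

/-- the relations modulo `D` -/
def rel (D : ℕ) (G : Matrix (Fin ρ) (Fin ρ) ℤ) : Set (Fin ρ → ZMod D) :=
  {m | ∀ k, ∑ i, m i * (G i k : ZMod D) = 0}

theorem iso_int {D : ℕ} (hD : D ≠ 0) {G G' : Matrix (Fin ρ) (Fin ρ) ℤ} (h : G.det ≠ 0)
    (hd : G.det ∣ (D : ℤ)) (hr : rel D G ⊆ rel D G') {x : Fin ρ → ℝ} (hx : x ∈ IntL ρ) :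
    x ᵥ* ((re G)⁻¹ * re G') ∈ IntL ρ := by
  obtain ⟨c, hc⟩ := hd
  choose a ha using hx
  set m : Fin ρ → ℤ := c • (a ᵥ* G.adjugate) with hm
  have h1 : m ᵥ* G = (D : ℤ) • a := by
    rw [hm, Matrix.smul_vecMul, Matrix.vecMul_vecMul, Matrix.adjugate_mul, Matrix.vecMul_smul,
      Matrix.vecMul_one, smul_smul, hc, mul_comm]
  have h2 : (fun i => (m i : ZMod D)) ∈ rel D G := by
    intro k
    have h3 := congrFun h1 k
    have h4 : (m ᵥ* G) k = ∑ i, m i * G i k := rfl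
    rw [h4, Pi.smul_apply, smul_eq_mul] at h3
    have h5 := congrArg (Int.cast : ℤ → ZMod D) h3
    push_cast at h5
    rw [h5]
    simp
  have h3 := hr h2
  intro k
  have h4 : ((∑ i, m i * G' i k : ℤ) : ZMod D) = 0 := by
    push_cast
    exact h3 k
  rw [ZMod.intCast_zmod_eq_zero_iff_dvd] at h4
  obtain ⟨n, hn⟩ := h4
  refine ⟨n, ?_⟩
  have hD' : (D : ℝ) ≠ 0 := by exact_mod_cast hD
  have h5 : (D : ℝ) • (x ᵥ* (re G)⁻¹) = fun i => (m i : ℝ) := by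
    have h6 : ((fun i => (m i : ℝ)) : Fin ρ → ℝ) ᵥ* re G = (D : ℝ) • x := by
      funext k
      have h7 := congrFun h1 k
      have h8 : (m ᵥ* G) k = ∑ i, m i * G i k := rfl
      rw [h8, Pi.smul_apply, smul_eq_mul] at h7
      have h9 := congrArg (Int.cast : ℤ → ℝ) h7
      push_cast at h9
      rw [Pi.smul_apply, smul_eq_mul, ha k, ← h9]
      rfl
    rw [← Matrix.smul_vecMul, ← h6, Matrix.vecMul_vecMul, Matrix.mul_nonsing_inv _ (re_unit h),
      Matrix.vecMul_one]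
  have h6 : (D : ℝ) • (x ᵥ* ((re G)⁻¹ * re G')) = (fun i => (m i : ℝ)) ᵥ* re G' := by
    rw [← Matrix.vecMul_vecMul, ← Matrix.smul_vecMul, h5]
  have h7 := congrFun h6 k
  have h8 : ((fun i => (m i : ℝ)) ᵥ* re G') k = ((∑ i, m i * G' i k : ℤ) : ℝ) := by
    push_cast
    rfl
  rw [h8, hn, Pi.smul_apply, smul_eq_mul] at h7
  push_cast at h7
  exact mul_left_cancel₀ hD' h7

theorem t_GRAM : S_GRAM := by
  classical
  intro ρ Q L hQ
  -- the Gram matrices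
  set MM : Set (Matrix (Fin ρ) (Fin ρ) ℤ) := {M | ∀ i j, M i j ∈ Set.Icc (-⌊L⌋) ⌊L⌋} with hMM
  have hfin : MM.Finite :=
    Set.Finite.pi' fun i => Set.Finite.pi' fun j => Set.finite_Icc (-⌊L⌋) ⌊L⌋
  obtain ⟨B, hB⟩ : ∃ B : ℕ, ∀ M ∈ MM, M.det.natAbs ≤ B := by
    obtain ⟨B, hB⟩ := (hfin.image fun M => M.det.natAbs).bddAbove
    exact ⟨B, fun M hM => hB (Set.mem_image_of_mem _ hM)⟩
  set 𝒢 : Set (Matrix (Fin ρ) (Fin ρ) ℤ) := {G | G.det ≠ 0 ∧ G * Q * Gᵀ ∈ MM} with h𝒢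
  have hdvd : ∀ G ∈ 𝒢, G.det ∣ ((B.factorial : ℕ) : ℤ) := by
    rintro G ⟨h1, h2⟩
    have h3 := hB _ h2
    rw [Matrix.det_mul, Matrix.det_mul, Matrix.det_transpose, Int.natAbs_mul, Int.natAbs_mul] at h3
    have h4 : 1 ≤ G.det.natAbs := Int.natAbs_pos.2 h1
    have h5 : 1 ≤ Q.det.natAbs := Int.natAbs_pos.2 hQ
    have h6 : G.det.natAbs ≤ B := by
      refine le_trans ?_ h3
      calc G.det.natAbs = G.det.natAbs * 1 * 1 := by ring
        _ ≤ G.det.natAbs * Q.det.natAbs * G.det.natAbs := by gcongr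
    rw [← Int.natAbs_dvd]
    exact_mod_cast Nat.dvd_factorial h4 h6
  have hD : B.factorial ≠ 0 := Nat.factorial_ne_zero B
  have : NeZero B.factorial := ⟨hD⟩
  set inv : Matrix (Fin ρ) (Fin ρ) ℤ → Matrix (Fin ρ) (Fin ρ) ℤ × Set (Fin ρ → ZMod B.factorial) :=
    fun G => (G * Q * Gᵀ, rel B.factorial G) with hinv
  have himg : (inv '' 𝒢).Finite := by
    refine (hfin.prod (Set.finite_univ (α := Set (Fin ρ → ZMod B.factorial)))).subset ?_
    rintro _ ⟨G, hG, rfl⟩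
    exact ⟨hG.2, Set.mem_univ _⟩
  obtain ⟨Gs, hGs, hbij⟩ := Set.exists_subset_bijOn 𝒢 inv
  refine ⟨Gs, ?_, fun G hG => (hGs hG).1, ?_⟩
  · refine Set.Finite.of_finite_image ?_ hbij.injOn
    rw [hbij.image_eq]
    exact himg
  · intro G hG hL
    have hGm : G ∈ 𝒢 := by
      refine ⟨hG, fun i j => ?_⟩
      have h1 := hL i j
      rw [gram_eq, abs_le] at h1
      rw [Set.mem_Icc]
      constructor
      · have h2 : ((-(G * Q * Gᵀ) i j : ℤ) : ℝ) ≤ L := by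
          push_cast
          linarith [h1.1]
        have h3 := Int.le_floor.2 h2
        linarith
      · exact Int.le_floor.2 h1.2
    obtain ⟨G', hG', he⟩ := hbij.surjOn (Set.mem_image_of_mem inv hGm)
    have h' := (hGs hG').1
    have he1 : G' * Q * G'ᵀ = G * Q * Gᵀ := congrArg Prod.fst he
    have he2 : rel B.factorial G' = rel B.factorial G := congrArg Prod.snd he
    refine ⟨iso hG h', fun x z => iso_form hG h' he1.symm x z, fun x => ⟨fun hx => ?_, fun hx => ?_⟩,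
      G', hG', fun i => iso_row hG h' i⟩
    · have h1 := iso_int hD h' (hdvd _ (hGs hG')) he2.subset hx
      rw [← iso_symm_apply hG h', LinearEquiv.symm_apply_apply] at h1
      exact h1
    · rw [iso_apply]
      exact iso_int hD hG (hdvd _ hGm) he2.symm.subset hx

end Pool.Agent.L0h84.LL
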